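import Pool.Agent.Lib.MP_acafa7_al.MS.Iface2

/-! Module AnnZ: a conjugating walk is removed by rotations and zips. -/

namespace MSG.H78

open Classical

section

variable {V D D' : Type} {a : Equiv.Perm V}

theorem rel_refl [Fintype D] (M : LMap V D a) (R : List D) : M.Rel R M R 0 := by
  refine ⟨Subtype.val, Subtype.val_injective, fun x => x.2, fun x y h => h,
    fun x => ⟨rfl, rfl⟩, ?_, ?_⟩
  · intro d' h1 h2
    exact absurd rfl (h2 ⟨d', h1⟩)
  · simp

theorem rel_of_mem [Fintype D] [Fintype D'] {M : LMap V D a} {R S : List D} {M' : LMap V D' a}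
    {R' : List D'} {n : ℕ} (hm : ∀ d, d ∈ S ↔ d ∈ R) (hl : S.length = R.length)
    (h : M.Rel S M' R' n) : M.Rel R M' R' n := by
  obtain ⟨j, h1, h2, h3, h4, h5, h6⟩ := h
  refine ⟨fun x => j ⟨x.1, fun hx => x.2 ((hm _).1 hx)⟩, ?_, fun x => h2 _, ?_, fun x => h4 _, ?_, ?_⟩
  · intro x y hxy
    have := Subtype.mk.inj (h1 hxy)
    exact Subtype.ext this
  · intro x y hxy
    exact h3 _ _ hxy
  · intro d' hd' hx
    refine h5 d' hd' (fun x => ?_)
    have := hx ⟨x.1, fun hx' => x.2 ((hm _).2 hx')⟩
    exact this
  · rw [← hl]; exact h6

/-- the walk `γ · s' · (a γ)⁻¹` -/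
def W (a : Equiv.Perm V) (γ s' : List V) : List V := cat (cat γ s') (γ.map a).reverse

theorem W_cons (x g : V) (l s' : List V) :
    W a (x :: g :: l) s' = x :: (W a (g :: l) s' ++ [a x]) := by
  unfold W cat
  have hne : ((g :: l).map a).reverse ≠ [] := by simp
  have : ((x :: g :: l).map a).reverse.tail = ((g :: l).map a).reverse.tail ++ [a x] := by
    rw [List.map_cons, List.reverse_cons, List.tail_append_of_ne_nil hne]
  rw [this]
  simp

theorem W_head (g : V) (l s' : List V) : ∃ m, W a (g :: l) s' = g :: m := by
  unfold W cat
  exact ⟨_, rfl⟩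

theorem W_single (y : V) (s' : List V) (h : s'.head? = some y) : W a [y] s' = s' := by
  unfold W cat
  cases s' with
  | nil => simp at h
  | cons z t =>
    simp only [List.head?_cons, Option.some.injEq] at h
    subst h
    simp

theorem W_last {G : SimpleGraph V} (y : V) (s' : List V) (hs : IsW G y (a y) s')
    (γ : List V) : ∀ x, IsW G x y γ → (W a γ s').getLast? = some (a x) := by
  induction γ with
  | nil => intro x h; have := h.first; simp at this
  | cons g l ih =>
    intro x h
    have hx : g = x := by have := h.first; simpa using this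
    subst hx
    cases l with
    | nil =>
      have hy : g = y := by have := h.last; simpa using this
      subst hy
      rw [W_single _ _ hs.first]
      exact hs.last
    | cons g' l' =>
      rw [W_cons]
      rw [← List.cons_append, List.getLast?_append]
      simp

theorem W_len (s' : List V) (h3 : 3 ≤ s'.length) (g : V)
    (l : List V) : 3 ≤ (W a (g :: l) s').length := by
  induction l generalizing g with
  | nil =>
    have : (W a [g] s').length = s'.length := by
      unfold W cat
      simp
      omega
    omega
  | cons g' l ih =>
    rw [W_cons]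
    have := ih g'
    simp only [List.length_cons, List.length_append, List.length_nil]
    omega

end

theorem annz (hRot : RotStatement) (hD : StepDStatement) (hT : RelTransStatement) :
    AnnZStatement := by
  intro V D _ X a hfree M R x y γ s' hpl hadj hγ hs' h3 hW
  have hbig : ∀ (γ : List V) (x : V) (D : Type) (_ : Fintype D) (M : LMap V D a) (R : List D),
      M.Planar → M.AdjM X.G → IsW X.G x y γ → M.HasWalk R (W a γ s').reverse →
      ∃ (D' : Type) (_ : Fintype D') (M' : LMap V D' a) (R' : List D'),
      M'.HasWalk R' s'.reverse ∧ M'.Planar ∧ M'.AdjM X.G ∧ M.Rel R M' R' 0 := by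
    intro γ
    induction γ with
    | nil =>
      intro x D _ M R _ _ h
      have := h.first
      simp at this
    | cons g l ih =>
      intro x D inst M R hpl hadj hγ hW
      have hx : g = x := by have := hγ.first; simpa using this
      subst hx
      cases l with
      | nil =>
        have hy : g = y := by have := hγ.last; simpa using this
        subst hy
        rw [W_single _ _ hs'.first] at hW
        exact ⟨D, inst, M, R, hW, hpl, hadj, rel_refl M R⟩
      | cons g' l' =>
        have hγ' : IsW X.G g' y (g' :: l') := by
          refine ⟨?_, rfl, ?_⟩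
          · exact (List.isChain_cons_cons.1 hγ.chain).2
          · have := hγ.last
            rwa [List.getLast?_cons_cons] at this
        obtain ⟨m, hm⟩ := W_head (a := a) g' l' s'
        have hlast := W_last y s' hs' _ _ hγ'
        have hlen := W_len (a := a) s' h3 g' l'
        -- the reversed walk
        have hmne : m ≠ [] := by
          intro h0
          rw [hm, h0] at hlen
          simp at hlen
        obtain ⟨m', z, hm'⟩ : ∃ m' z, m = m' ++ [z] :=
          ⟨m.dropLast, m.getLast hmne, (List.dropLast_append_getLast hmne).symm⟩
        have hz : z = a g' := by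
          rw [hm, hm', ← List.cons_append, List.getLast?_append] at hlast
          simpa using hlast
        subst hz
        have hrev : (W a (g' :: l') s').reverse = (a g' :: m'.reverse) ++ [g'] := by
          rw [hm, hm']
          simp
        have hWr : (W a (g :: g' :: l') s').reverse = a g :: a g' :: (m'.reverse ++ [g', g]) := by
          rw [W_cons, List.reverse_cons, List.reverse_append, hrev]
          simp
        rw [hWr] at hW
        have hinv : ∀ v, (a ^ (-1 : ℤ)) (a v) = v := by
          intro v
          rw [zpow_neg_one]
          exact Equiv.symm_apply_apply a v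
        have hgl : (a g :: a g' :: (m'.reverse ++ [g', g])).getLast? =
            some ((a ^ (-1 : ℤ)) (a g)) := by
          rw [hinv]
          have : a g :: a g' :: (m'.reverse ++ [g', g]) =
            (a g :: a g' :: (m'.reverse ++ [g'])) ++ [g] := by simp
          rw [this, List.getLast?_append]
          simp
        obtain ⟨hW1, -, -⟩ := hRot V D X a hfree M R (a g) (a g') _ (-1) hW hgl
        rw [hinv] at hW1
        have e1 : a g' :: ((m'.reverse ++ [g', g]) ++ [g']) =
            (a g' :: m'.reverse) ++ g' :: g :: g' :: [] := by simp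
        rw [e1] at hW1
        obtain ⟨D1, inst1, M1, R1, hw1, hp1, ha1, hr1, -⟩ :=
          hD V D X a hfree M (R.rotate 1) Set.univ (fun _ _ _ => 0) (a g' :: m'.reverse) [] g' g
            hpl hadj (by simp) hW1
        rw [← hrev] at hw1
        obtain ⟨D2, inst2, M2, R2, hw2, hp2, ha2, hr2⟩ := ih g' D1 inst1 M1 R1 hp1 ha1 hγ' hw1
        have hr1' : M.Rel R M1 R1 0 := rel_of_mem (fun d => List.mem_rotate) (by simp) hr1
        exact ⟨D2, inst2, M2, R2, hw2, hp2, ha2,
          hT V D D1 D2 a M M1 M2 R R1 R2 0 0 (Or.inr hW.1) (Or.inr hw1.1) hr1' hr2⟩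
  exact hbig γ x D _ M R hpl hadj hγ hW

end MSG.H78
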