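import Pool.Agent.Lib.MP_acafa7_al.MS.Iface2

/-! Module D2: Theorem 9.5 by induction. -/

namespace MSG.H78

open Classical

theorem cy_symm {V : Type} {X : Cx V} {a : Equiv.Perm V} {K : ℕ} {x y : V}
    (h : CY X a K x y) : CY X a K y x := by
  obtain ⟨l, hl, hl'⟩ := h
  refine ⟨l.reverse, ⟨?_, ?_, ?_⟩, fun z hz => hl' z (List.mem_reverse.1 hz)⟩
  · rw [List.isChain_reverse]
    exact hl.chain.imp (fun u v huv => huv.symm)
  · rw [List.head?_reverse]; exact hl.last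
  · rw [List.getLast?_reverse]; exact hl.first

theorem d2 (hT : TouchStatement) (hM : MarkExStatement) (hS : SwapStatement)
    (hI : InnerStatement) : D2Statement := by
  intro V X a C K K' h9
  have key : ∀ (m n : ℕ) (𝒜 : MA X a C), 𝒜.nt = m → 𝒜.nb = n → 𝒜.Le K → 𝒜.Good K' := by
    intro m
    induction m using Nat.strong_induction_on with
    | _ m ihm =>
    intro n
    induction n using Nat.strong_induction_on with
    | _ n ihn =>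
    intro 𝒜 hm hn hLe
    have hstep : ∀ 𝒜₁ : MA X a C, 𝒜₁.nt = m → 𝒜₁.nb = n → 𝒜₁.Smaller K K' → 𝒜₁.Good K' := by
      rintro 𝒜₁ hm₁ hn₁ ⟨𝒜', hLe', hlt, hG⟩
      apply hG
      rcases hlt with h | ⟨h1, h2⟩
      · exact ihm 𝒜'.nt (by omega) 𝒜'.nb 𝒜' rfl rfl hLe'
      · exact ihn 𝒜'.nb (by omega) 𝒜' (by omega) rfl hLe'
    by_cases hNT : 𝒜.NoTouch
    · obtain ⟨o, hoB, honly, hcurv⟩ := hM V X a C h9.aut 𝒜 hNT
      rcases hoB with hoP | hoQ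
      · exact hstep 𝒜 hm hn (hI V X a C K K' h9 𝒜 o hLe ⟨hoP, honly, hcurv⟩)
      · -- exchange the faces
        let 𝒜s : MA X a C := ⟨𝒜.D, 𝒜.fin, 𝒜.M, 𝒜.Q, 𝒜.P, -𝒜.ε, 𝒜.ℓ, 𝒜.e,
          hS V 𝒜.D X a C 𝒜.M 𝒜.P 𝒜.Q 𝒜.ε 𝒜.ℓ 𝒜.e 𝒜.ok⟩
        have hB : annB 𝒜.Q 𝒜.P = annB 𝒜.P 𝒜.Q := by
          unfold annB; ext d; exact or_comm
        have hmk : 𝒜s.Marked o := by
          refine ⟨hoQ, ?_, ?_⟩
          · show ∀ b ∈ annB 𝒜.Q 𝒜.P, 𝒜.M.SameV o b → b = o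
            rw [hB]; exact honly
          · show 0 ≤ 𝒜.M.curv 𝒜.ℓ (annB 𝒜.Q 𝒜.P) o
            rw [hB]; exact hcurv
        have hnt : 𝒜s.nt = m := by
          rw [← hm]
          show Fintype.card 𝒜.D - (𝒜.Q.length + 𝒜.P.length) =
            Fintype.card 𝒜.D - (𝒜.P.length + 𝒜.Q.length)
          rw [add_comm 𝒜.Q.length]
        have hnb : 𝒜s.nb = n := by
          rw [← hn]
          show 𝒜.Q.length + 𝒜.P.length = 𝒜.P.length + 𝒜.Q.length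
          exact add_comm _ _
        have hLes : 𝒜s.Le K := ⟨hLe.2, hLe.1⟩
        have hG := hstep 𝒜s hnt hnb (hI V X a C K K' h9 𝒜s o hLes hmk)
        intro p hp q hq
        exact cy_symm (hG q hq p hp)
    · exact hT V X a C K K' h9 𝒜 hLe hNT
  intro 𝒜 hLe
  exact key 𝒜.nt 𝒜.nb 𝒜 rfl rfl hLe

end MSG.H78
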