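import Pool.Agent.Lib.MP_acafa7_al.MS.Iface2
import Pool.Agent.Lib.MP_acafa7_al.MS.H23.DelM

/-! Module HairM: removal of a hair at a marked vertex of a metric annulus (after helper23's DelM). -/

namespace MSG.H78

open Classical MSG.H23

theorem cy_trans {V : Type} {X : Cx V} {a : Equiv.Perm V} {K : ℕ} {x y z : V}
    (h1 : CY X a K x y) (h2 : CY X a K y z) : CY X a K x z := by
  obtain ⟨l, hl, hl'⟩ := h1
  obtain ⟨m, hm, hm'⟩ := h2
  cases m with
  | nil => have := hm.first; simp at this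
  | cons y' m' =>
    have hy : y' = y := by have := hm.first; simpa using this
    subst hy
    refine ⟨l ++ m', ⟨?_, ?_, ?_⟩, ?_⟩
    · rw [List.isChain_append]
      refine ⟨hl.chain, ?_, ?_⟩
      · cases m' with
        | nil => simp
        | cons z' m'' => exact (List.isChain_cons_cons.1 hm.chain).2
      · intro u hu v hv
        rw [hl.last] at hu
        have hu' : y' = u := by simpa using hu
        subst hu'
        cases m' with
        | nil => simp at hv
        | cons z' m'' =>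
          have hv' : z' = v := by simpa using hv
          subst hv'
          exact (List.isChain_cons_cons.1 hm.chain).1
    · rw [List.head?_append, hl.first]
      simp
    · rw [List.getLast?_append]
      cases m' with
      | nil =>
        have h3 := hm.last
        simp only [List.getLast?_singleton, Option.some.injEq] at h3
        subst h3
        simp [hl.last]
      | cons z' m'' =>
        have h3 := hm.last
        rw [List.getLast?_cons_cons] at h3
        rw [h3]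
        simp
    · intro u hu
      rcases List.mem_append.1 hu with h | h
      · exact hl' u h
      · exact hm' u (List.mem_cons_of_mem _ h)

theorem hairm (hhair : HairStatement) (hVh : VhStatement) (hPC : PConnStatement) :
    HairMStatement := by
  intro V X a C K K' h9 𝒜 o s hLe hMk hF
  have hfree := h9.aut
  have hoP := hMk.1
  have honly := hMk.2.1
  have hs0 : s 0 = o := hF.last
  have hio : 𝒜.M.φ (𝒜.M.ι o) = o := by have := hF.zero; rwa [hs0] at this
  have hoo : 𝒜.M.φ o ≠ o := by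
    intro h
    exact 𝒜.M.ne o (𝒜.M.φ.injective (hio.trans h.symm))
  obtain ⟨k, hk0⟩ : ∃ k : ℕ, k = 0 := ⟨0, rfl⟩
  rw [← hk0] at hF
  have hloop : ∀ j, 0 < j → j < k → ¬ 𝒜.M.SameV o (𝒜.M.ι (s j)) := fun j h1 h2 => by omega
  obtain ⟨hi, hB1, hB2, hA, hBn, hCn⟩ := fan_facts 𝒜 o k s hoP honly hF hoo hloop
  have hok := 𝒜.ok
  have hann := hok.ann
  have hcl := hann.off.1
  -- rotation of the face
  obtain ⟨rest, hrot⟩ : ∃ rest, (𝒜.M.ι (s 0) :: o :: rest).IsRotated 𝒜.P := by
    obtain ⟨l1, l2, hl⟩ := List.append_of_mem hi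
    have hr : (𝒜.M.ι (s 0) :: (l2 ++ l1)).IsRotated 𝒜.P := by
      rw [hl]
      have := List.isRotated_append (l := 𝒜.M.ι (s 0) :: l2) (l' := l1)
      simpa using this
    have hf : 𝒜.M.IsFace (𝒜.M.ι (s 0) :: (l2 ++ l1)) := face_isRot hann.faceP hr.symm
    rcases hc : l2 ++ l1 with _ | ⟨o', rest⟩
    · rw [hc] at hf
      exfalso
      have h3 := hf.2.2
      simp only [List.map_cons, List.map_nil, List.rotate_singleton, List.cons.injEq,
        and_true] at h3
      rw [hF.zero] at h3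
      have h4 := hF.zero
      rw [← h3] at h4
      exact hoo h4
    · rw [hc] at hf hr
      have := (face_eq hf).1
      rw [hF.zero] at this
      exact ⟨rest, by rw [this]; exact hr⟩
  have hface : 𝒜.M.IsFace (𝒜.M.ι (s 0) :: o :: rest) := face_isRot hann.faceP hrot.symm
  have hmemP : ∀ x, x ∈ 𝒜.P ↔ x = 𝒜.M.ι (s 0) ∨ x = o ∨ x ∈ rest := by
    intro x
    rw [← hrot.mem_iff]
    simp
  -- the face is longer than two
  have hφoι : 𝒜.M.φ o ≠ 𝒜.M.ι (s 0) := by
    intro h
    rw [hs0] at h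
    have hV := hVh V 𝒜.D a hfree.free 𝒜.M {d | d = o ∨ d = 𝒜.M.ι o} ?_
    · have hrest : rest = [] := by
        cases rest with
        | nil => rfl
        | cons r rs =>
          exfalso
          have h5 := (face_eq hface).2
          rw [hs0] at h5
          simp only [List.map_cons, List.cons_append, List.cons.injEq] at h5
          have h6 := hface.2.1
          rw [hs0, ← h, h5.1] at h6
          simp at h6
      have hol : 𝒜.M.hol 𝒜.P = 𝒜.M.h (𝒜.M.ι o) + 𝒜.M.h o := by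
        rw [← hol_isRot 𝒜.M hrot, hrest, hs0]
        unfold LMap.hol
        simp
      have hsum : 0 = 𝒜.M.h o + 𝒜.M.h (𝒜.M.ι o) := by
        have hne : o ≠ 𝒜.M.ι o := fun h => 𝒜.M.ne o h.symm
        rw [← hV]
        refine (Finset.sum_subset (Finset.subset_univ ({o, 𝒜.M.ι o} : Finset 𝒜.D)) ?_).symm.trans ?_
        · intro d _ hd
          rw [if_neg]
          intro h'
          apply hd
          rcases h' with h' | h'
          · simp [h']
          · simp [h']
        · rw [Finset.sum_pair hne]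
          congr 1
          · exact if_pos (show o = o ∨ o = 𝒜.M.ι o from Or.inl rfl)
          · exact if_pos (show 𝒜.M.ι o = o ∨ 𝒜.M.ι o = 𝒜.M.ι o from Or.inr rfl)
      rw [hann.holP] at hol
      rcases hann.eps with h1 | h1 <;> omega
    · rintro d (rfl | rfl)
      · exact ⟨Or.inr h, Or.inr rfl⟩
      · exact ⟨Or.inl hio, Or.inl (𝒜.M.ιι _)⟩
  have hrne : rest ≠ [] := by
    rintro rfl
    have h5 := (face_eq hface).2
    simp only [List.map_cons, List.map_nil, List.nil_append, List.cons.injEq, and_true] at h5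
    exact hφoι h5
  have hH : Hyp 𝒜.M (𝒜.M.ι (s 0)) o rest 0 s := by
    refine ⟨hface, by rw [𝒜.M.ιι], hs0, ?_, ?_, ?_, ?_, ?_, ?_, ?_⟩
    · intro j hj; omega
    · intro j hj; omega
    · intro j hj; omega
    · intro j j' hj hj' _; omega
    · intro j j' hj hj'; exact hA j j' (by omega) (by omega)
    · intro j j' hj; omega
    · intro j j' _ hj; omega
  obtain ⟨D', fD', M', q, R', hRes⟩ := base hhair hfree.free 𝒜.M _ o rest s hH hrne
  have hRes' : Res 𝒜.M (𝒜.M.ι (s 0)) o rest k s M' q R' := by subst hk0; exact hRes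
  obtain ⟨qinj, qrng, faceR, hRmap, hhol, hout, hlab, hsame, hplanar, -⟩ := hRes'
  have hsmem : ∀ j, j ≤ k → 𝒜.M.SameV o (s j) := fun j hj => (hF.cls _).2 ⟨j, hj, rfl⟩
  -- position of `ι (s j)`
  have hιpos : ∀ j, j ≤ k → 𝒜.M.ι (s j) ∉ 𝒜.Q := by
    intro j hj
    rcases Nat.eq_zero_or_pos j with h0 | h0
    · rw [h0]; exact hann.disj _ hi
    · intro h
      obtain ⟨m, rfl⟩ : ∃ m, j = m + 1 := ⟨j - 1, by omega⟩
      have e : 𝒜.M.ι (s (m + 1)) = 𝒜.M.φ (𝒜.M.φ (s m)) := by
        rw [hF.next m (by omega), 𝒜.M.ιι]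
      rw [e] at h
      exact hB2 m (by omega) (Or.inr h)
  have hspos : ∀ j, j ≤ k → s j ∉ 𝒜.Q := by
    intro j hj h
    rcases Nat.lt_or_ge j k with hlt | hge
    · exact hF.tri j hlt (Or.inr h)
    · have : j = k := by omega
      rw [this, hF.last] at h
      exact hann.disj _ hoP h
  -- lift of `Q`
  obtain ⟨Q', hQ'⟩ := list_lift q 𝒜.Q (fun x hx => (qrng x).2 (fun j hj =>
    ⟨fun h => hspos j hj (h ▸ hx), fun h => hιpos j hj (h ▸ hx)⟩))
  have hQmem : ∀ x, x ∈ Q' ↔ q x ∈ 𝒜.Q := by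
    intro x
    rw [← hQ']
    constructor
    · exact fun h => List.mem_map_of_mem h
    · intro h
      obtain ⟨y, hy, hyx⟩ := List.mem_map.1 h
      rwa [← qinj hyx]
  have hRmem : ∀ x, q x ∈ 𝒜.P → x ∈ R' := by
    intro x hx
    have hr := (qrng (q x)).1 ⟨x, rfl⟩
    rcases (hmemP _).1 hx with h | h | h
    · exact absurd h (hr 0 (by omega)).2
    · exact absurd (h.trans hF.last.symm) (hr k le_rfl).1
    · have : q x ∈ R'.map q := by rw [hRmap]; exact List.mem_append_right _ h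
      obtain ⟨y, hy, hyx⟩ := List.mem_map.1 this
      rwa [← qinj hyx]
  have hRcase : ∀ x, x ∈ R' → (∃ j, j < k ∧ q x = 𝒜.M.φ (s j)) ∨ q x ∈ rest := by
    intro x hx
    have : q x ∈ R'.map q := List.mem_map_of_mem hx
    rw [hRmap] at this
    rcases List.mem_append.1 this with h | h
    · obtain ⟨j, hj, hjx⟩ := List.mem_map.1 h
      exact Or.inl ⟨j, List.mem_range.1 hj, hjx.symm⟩
    · exact Or.inr h
  have hdisj : ∀ d ∈ R', d ∉ Q' := by
    intro d hd hdq
    rw [hQmem] at hdq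
    rcases hRcase d hd with ⟨j, hj, hj'⟩ | h
    · rw [hj'] at hdq
      exact hB1 j hj (Or.inr hdq)
    · exact hann.disj _ ((hmemP _).2 (Or.inr (Or.inr h))) hdq
  have hB' : ∀ x, x ∉ annB R' Q' → q x ∉ annB 𝒜.P 𝒜.Q := by
    intro x hx h
    rcases h with h | h
    · exact hx (Or.inl (hRmem x h))
    · exact hx (Or.inr ((hQmem x).2 h))
  have hfaceQ : M'.IsFace Q' := by
    refine ⟨?_, ?_, ?_⟩
    · rintro rfl
      exact hann.faceQ.1 (by rw [← hQ']; rfl)
    · apply List.Nodup.of_map q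
      rw [hQ']; exact hann.faceQ.2.1
    · apply List.map_injective_iff.2 qinj
      rw [List.map_map, List.map_rotate, hQ', ← hann.faceQ.2.2, ← hQ', List.map_map]
      apply List.map_congr_left
      intro x hx
      exact (hout x (fun h => hdisj x h hx)).1
  -- darts outside the big faces
  have hφ1 : ∀ x, x ∉ annB R' Q' → M'.φ x ∉ annB R' Q' := by
    intro x hx h
    rcases h with h | h
    · exact hx (Or.inl (face_mem' faceR h))
    · exact hx (Or.inr (face_mem' hfaceQ h))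
  have hq1 : ∀ x, x ∉ annB R' Q' → q (M'.φ x) = 𝒜.M.φ (q x) := fun x hx =>
    (hout x (fun h => hx (Or.inl h))).1
  have hh1 : ∀ x, x ∉ annB R' Q' → M'.h x = 𝒜.M.h (q x) := fun x hx =>
    (hout x (fun h => hx (Or.inl h))).2
  have hq2 : ∀ x, x ∉ annB R' Q' → q (M'.φ (M'.φ x)) = 𝒜.M.φ (𝒜.M.φ (q x)) := fun x hx => by
    rw [hq1 _ (hφ1 x hx), hq1 x hx]
  have hoff : M'.Off (annB R' Q') := by
    constructor
    · intro d hd
      rcases hd with h | h
      · exact Or.inl (face_mem faceR h)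
      · exact Or.inr (face_mem hfaceQ h)
    · intro d hd
      have hT := hann.off.2 _ (hB' d hd)
      refine ⟨⟨?_, ?_⟩, ?_⟩
      · apply qinj
        rw [hq1 _ (hφ1 _ (hφ1 d hd)), hq2 d hd]
        exact hT.1.1
      · intro h
        have := congrArg q h
        rw [hq1 d hd] at this
        exact hT.1.2 this
      · rw [hh1 d hd, hh1 _ (hφ1 d hd), hh1 _ (hφ1 _ (hφ1 d hd)), hq1 d hd, hq2 d hd]
        exact hT.2
  have hann' : IsAnn M' R' Q' 𝒜.ε := by
    refine ⟨hplanar hann.planar, faceR, hfaceQ, hdisj, hoff, ?_, ?_, hann.eps⟩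
    · rw [hhol, hol_isRot 𝒜.M hrot]; exact hann.holP
    · rw [← hann.holQ, ← hQ']
      unfold LMap.hol
      rw [List.map_map]
      congr 1
      apply List.map_congr_left
      intro x hx
      exact (hout x (fun h => hdisj x h hx)).2
  have hlen : M'.LenOK (fun x => 𝒜.ℓ (q x)) (annB R' Q') := by
    refine ⟨fun d => hok.lenok.1 _, fun d => ?_, fun d hd => ?_⟩
    · change 𝒜.ℓ (q (M'.ι d)) = 𝒜.ℓ (q d)
      rw [(hlab d).1]; exact hok.lenok.2.1 _
    · change 𝒜.ℓ (q (M'.φ d)) < 𝒜.ℓ (q d) + 𝒜.ℓ (q (M'.φ (M'.φ d)))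
      rw [hq2 d hd, hq1 d hd]
      exact hok.lenok.2.2 _ (hB' d hd)
  -- curvature
  have hφo : 𝒜.M.SameV (𝒜.M.ι o) (𝒜.M.φ o) := 𝒜.M.sameV_symm (𝒜.M.sameV_step o)
  have hkey : ∀ d, (∀ b, M'.SameV d b → b ∉ annB R' Q') → ∀ b, 𝒜.M.SameV (q d) b →
      ∃ b', q b' = b := by
    intro d hd b hb
    have hnear : ∀ j, j < k → ¬ 𝒜.M.SameV (q d) (𝒜.M.ι (s j)) := by
      intro j hj h
      have h2 : 𝒜.M.φ (s j) ∈ R'.map q := by
        rw [hRmap]
        exact List.mem_append_left _ (List.mem_map.2 ⟨j, List.mem_range.2 hj, rfl⟩)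
      obtain ⟨y, hy, hyx⟩ := List.mem_map.1 h2
      have h3 : 𝒜.M.SameV (q d) (q y) := by
        rw [hyx]
        exact 𝒜.M.sameV_trans h (𝒜.M.sameV_symm (𝒜.M.sameV_step (s j)))
      exact hd y ((hsame d y).2 h3) (Or.inl hy)
    have hlast : ¬ 𝒜.M.SameV (q d) (𝒜.M.ι o) := by
      intro h
      have h2 : 𝒜.M.SameV (q d) (𝒜.M.φ o) := 𝒜.M.sameV_trans h hφo
      have h3 : 𝒜.M.φ o ∈ 𝒜.M.ι (s 0) :: o :: rest := face_mem hface (by simp)
      rcases List.mem_cons.1 h3 with h4 | h4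
      · exact hφoι h4
      · rcases List.mem_cons.1 h4 with h5 | h5
        · exact hoo h5
        · have h6 : 𝒜.M.φ o ∈ R'.map q := by rw [hRmap]; exact List.mem_append_right _ h5
          obtain ⟨y, hy, hyx⟩ := List.mem_map.1 h6
          rw [← hyx] at h2
          exact hd y ((hsame d y).2 h2) (Or.inl hy)
    apply (qrng b).2
    intro j hj
    constructor
    · rintro rfl
      have h2 : 𝒜.M.SameV o (q d) := 𝒜.M.sameV_trans (hsmem j hj) (𝒜.M.sameV_symm hb)
      obtain ⟨j', hj', hjj⟩ := (hF.cls _).1 h2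
      exact ((qrng (q d)).1 ⟨d, rfl⟩ j' hj').1 hjj.symm
    · rintro rfl
      rcases Nat.lt_or_ge j k with hlt | hge
      · exact hnear j hlt hb
      · have : j = k := by omega
        rw [this, hF.last] at hb
        exact hlast hb
  have hth : ∀ x, x ∉ annB R' Q' → M'.th (fun x => 𝒜.ℓ (q x)) x = 𝒜.M.th 𝒜.ℓ (q x) := by
    intro x hx
    change ang (𝒜.ℓ (q x)) (𝒜.ℓ (q (M'.φ (M'.φ x)))) (𝒜.ℓ (q (M'.φ x))) = _
    rw [hq1 x hx, hq2 x hx]
    rfl
  have hcurv : ∀ d, (∀ b, M'.SameV d b → b ∉ annB R' Q') →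
      M'.curv (fun x => 𝒜.ℓ (q x)) (annB R' Q') d = 𝒜.M.curv 𝒜.ℓ (annB 𝒜.P 𝒜.Q) (q d) := by
    intro d hd
    unfold DMap.curv
    congr 1
    apply Fintype.sum_of_injective q qinj
    · intro x hx
      rw [if_neg]
      intro h
      obtain ⟨b', hb'⟩ := hkey d hd x h
      exact hx ⟨b', hb'⟩
    · intro x
      by_cases hx : M'.SameV d x
      · rw [if_pos hx, if_pos ((hsame d x).1 hx)]
        unfold DMap.wt
        rw [if_neg (hd x hx), if_neg (hB' x (hd x hx)), hth x (hd x hx)]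
      · rw [if_neg hx, if_neg (fun h => hx ((hsame d x).2 h))]
  have hMA : IsMA X C M' R' Q' 𝒜.ε (fun x => 𝒜.ℓ (q x)) (fun x => 𝒜.e (q x)) := by
    refine ⟨hann', hlen, ?_, ?_, ?_, ?_, ?_⟩
    · intro d
      change 𝒜.e (q d) 0 = _
      rw [hok.e0, (hlab d).2.1]
    · intro d t h0 h1
      change sh a (M'.γ d) (𝒜.e (q (M'.ι d)) t) = 𝒜.e (q d) (𝒜.ℓ (q d) - t)
      rw [(hlab d).1, (hlab d).2.2]
      exact hok.eι _ _ h0 h1
    · intro d t t' h1 h2 h3 h4 z
      exact hok.elip _ _ _ h1 h2 h3 h4 z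
    · intro d hd
      change Fil X C (𝒜.ℓ (q d)) (𝒜.ℓ (q (M'.φ d))) (𝒜.ℓ (q (M'.φ (M'.φ d)))) (𝒜.e (q d))
        (fun s => sh a (M'.h d) (𝒜.e (q (M'.φ d)) s))
        (fun s => sh a (M'.h d + M'.h (M'.φ d)) (𝒜.e (q (M'.φ (M'.φ d))) s))
      rw [hq2 d hd, hh1 _ (hφ1 d hd), hq1 d hd, hh1 d hd]
      exact hok.fil _ (hB' d hd)
    · intro d hd
      rw [hcurv d hd]
      apply hok.npc
      intro b hb
      obtain ⟨b', rfl⟩ := hkey d hd b hb
      exact hB' b' (hd b' ((hsame d b').2 hb))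
  -- number of darts
  have hcard : Fintype.card D' + 2 * (k + 1) = Fintype.card 𝒜.D := by
    let t : Fin (k + 1) × Bool → 𝒜.D := fun p => if p.2 then s p.1 else 𝒜.M.ι (s p.1)
    have ht : ∀ x, (∃ p, t p = x) ↔ ¬ ∃ x', q x' = x := by
      intro x
      rw [qrng x]
      push Not
      constructor
      · rintro ⟨⟨j, b⟩, rfl⟩
        refine ⟨j, by omega, ?_⟩
        cases b
        · intro _; simp [t]
        · intro h; simp [t] at h
      · rintro ⟨j, hj, hx⟩
        by_cases h : x = s j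
        · exact ⟨(⟨j, by omega⟩, true), by simp [t, h]⟩
        · exact ⟨(⟨j, by omega⟩, false), by simp [t, hx h]⟩
    have tinj : Function.Injective t := by
      rintro ⟨j, b⟩ ⟨j', b'⟩ h
      have hj : (j : ℕ) ≤ k := by omega
      have hj' : (j' : ℕ) ≤ k := by omega
      cases b <;> cases b' <;> simp only [t, if_true, if_false, Bool.false_eq_true] at h
      · have := hF.inj _ _ hj hj' (𝒜.M.ι.injective h)
        simp [Fin.ext_iff, this]
      · exact absurd h.symm (hA _ _ hj' hj)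
      · exact absurd h (hA _ _ hj hj')
      · have := hF.inj _ _ hj hj' h
        simp [Fin.ext_iff, this]
    have hbij : Function.Bijective (Sum.elim q t) := by
      constructor
      · apply Function.Injective.sumElim qinj tinj
        intro x y h
        exact (ht (q x)).1 ⟨y, h.symm⟩ ⟨x, rfl⟩
      · intro x
        by_cases h : ∃ x', q x' = x
        · obtain ⟨x', hx'⟩ := h
          exact ⟨Sum.inl x', hx'⟩
        · obtain ⟨p, hp⟩ := (ht x).2 h
          exact ⟨Sum.inr p, hp⟩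
    have := Fintype.card_of_bijective hbij
    rw [← this]
    simp [Fintype.card_sum, Fintype.card_prod]
    ring
  have hRmap' : R'.map q = rest := by rw [hRmap, hk0]; rfl
  have hcard' : Fintype.card D' + 2 = Fintype.card 𝒜.D := by rw [← hcard, hk0]
  have hlP : 𝒜.P.length = rest.length + 2 := by
    rw [← hrot.perm.length_eq]; simp
  have hlR : R'.length = rest.length := by rw [← hRmap', List.length_map]
  have hlQ : Q'.length = 𝒜.Q.length := by rw [← hQ', List.length_map]
  refine ⟨⟨D', fD', M', R', Q', 𝒜.ε, fun x => 𝒜.ℓ (q x), fun x => 𝒜.e (q x), hMA⟩,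
    ⟨?_, ?_⟩, Or.inr ⟨?_, ?_⟩, ?_⟩
  · have e1 : R'.map (fun x => 𝒜.ℓ (q x)) = rest.map 𝒜.ℓ := by
      rw [← hRmap', List.map_map]; rfl
    have e2 : (𝒜.P.map 𝒜.ℓ).sum = 𝒜.ℓ (𝒜.M.ι (s 0)) + (𝒜.ℓ o + (rest.map 𝒜.ℓ).sum) := by
      rw [← (hrot.perm.map 𝒜.ℓ).sum_eq]
      simp
    have h1 := hLe.1
    have h2 := hok.lenok.1 (𝒜.M.ι (s 0))
    have h3 := hok.lenok.1 o
    show (R'.map (fun x => 𝒜.ℓ (q x))).sum ≤ K
    rw [e1]
    linarith
  · have e1 : Q'.map (fun x => 𝒜.ℓ (q x)) = 𝒜.Q.map 𝒜.ℓ := by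
      rw [← hQ', List.map_map]; rfl
    show (Q'.map (fun x => 𝒜.ℓ (q x))).sum ≤ K
    rw [e1]
    exact hLe.2
  · show Fintype.card D' - (R'.length + Q'.length) =
      Fintype.card 𝒜.D - (𝒜.P.length + 𝒜.Q.length)
    omega
  · show R'.length + Q'.length < 𝒜.P.length + 𝒜.Q.length
    omega
  · intro hG p hp x hx
    obtain ⟨r, hr⟩ := List.exists_mem_of_ne_nil _ faceR.1
    have hqr : q r ∈ 𝒜.P := by
      rw [hmemP]
      right; right
      rw [← hRmap']
      exact List.mem_map_of_mem hr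
    have h1 := (hPC V X a C K K' h9 𝒜 hLe).1 p hp (q r) hqr 0
    rw [zpow_zero, Equiv.Perm.one_apply] at h1
    rw [← hQ'] at hx
    obtain ⟨y, hy, rfl⟩ := List.mem_map.1 hx
    have h2 : CY X a K' (M'.f r) (M'.f y) := hG r hr y hy
    rw [(hlab r).2.1, (hlab y).2.1] at h2
    exact cy_trans h1 h2

end MSG.H78
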