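import Pool.Agent.Lib.MP_acafa7_al.MS.Iface2

/-! Module LabV: labels along a vertex. -/

namespace MSG.H78

open Classical

theorem labv : LabVStatement := by
  intro V D a M x y hxy
  have key := hxy (fun d => ∃ n : ℤ, M.f d = (a ^ n) (M.f x)) ?_
  · exact key.1 ⟨0, by simp⟩
  · intro d
    have ht := M.tgt d
    constructor
    · rintro ⟨n, hn⟩
      refine ⟨-M.γ d + (M.h d + n), ?_⟩
      rw [zpow_add, Equiv.Perm.mul_apply, zpow_add, Equiv.Perm.mul_apply, ← hn, ← ht,
        ← Equiv.Perm.mul_apply, ← zpow_add, neg_add_cancel, zpow_zero, Equiv.Perm.one_apply]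
    · rintro ⟨n, hn⟩
      refine ⟨-M.h d + (M.γ d + n), ?_⟩
      rw [zpow_add, Equiv.Perm.mul_apply, zpow_add, Equiv.Perm.mul_apply, ← hn, ht,
        ← Equiv.Perm.mul_apply, ← zpow_add, neg_add_cancel, zpow_zero, Equiv.Perm.one_apply]

end MSG.H78
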