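import Pool.Agent.Lib.MP_acafa7_al.MS.Iface2

/-! Module PConn: labels of one boundary face are connected. -/

namespace MSG.H78

open Classical

section

variable {V D : Type} {a : Equiv.Perm V}

theorem face_getElem {M : DMap D} {P : List D} (hP : M.IsFace P) (i : ℕ) (hi : i < P.length) :
    M.φ P[i] = P[(i + 1) % P.length]'(Nat.mod_lt _ (by omega)) := by
  have h := hP.2.2
  have h1 : (P.map M.φ)[i]'(by simpa using hi) = M.φ P[i] := by simp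
  rw [← h1]
  have h2 : (P.map M.φ)[i]'(by simpa using hi) = (P.rotate 1)[i]'(by simpa using hi) := by
    congr 1
  rw [h2, List.getElem_rotate]

theorem face_iter {M : DMap D} {P : List D} (hP : M.IsFace P) (i : ℕ) (hi : i < P.length)
    (k : ℕ) : (M.φ ^ k) P[i] = P[(k + i) % P.length]'(Nat.mod_lt _ (by omega)) := by
  induction k with
  | zero =>
    simp only [pow_zero, Equiv.Perm.one_apply, Nat.zero_add]
    congr 1
    exact (Nat.mod_eq_of_lt hi).symm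
  | succ k ih =>
    rw [pow_succ', Equiv.Perm.mul_apply, ih, face_getElem hP _ (Nat.mod_lt _ (by omega))]
    congr 1
    rw [Nat.mod_add_mod]
    congr 1
    omega

/-- a face read from any of its darts -/
theorem face_rot {M : DMap D} {P : List D} (hP : M.IsFace P) {p : D} (hp : p ∈ P) :
    ∃ j, P.rotate j = (List.range P.length).map (fun k => (M.φ ^ k) p) := by
  obtain ⟨i, hi, rfl⟩ := List.getElem_of_mem hp
  refine ⟨i, List.ext_getElem (by simp) ?_⟩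
  intro k h1 h2
  rw [List.getElem_rotate, List.getElem_map, List.getElem_range, face_iter hP i hi]

theorem sum_face {N : Type} [AddCommMonoid N] {M : DMap D} {P : List D} (hP : M.IsFace P) {p : D}
    (hp : p ∈ P) (g : D → N) :
    (P.map g).sum = ∑ k ∈ Finset.range P.length, g ((M.φ ^ k) p) := by
  obtain ⟨j, hj⟩ := face_rot hP hp
  have h1 : ((P.rotate j).map g).sum = (P.map g).sum :=
    ((List.rotate_perm P j).map g).sum_eq
  rw [← h1, hj, List.map_map, Finset.sum_range]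
  rw [← List.sum_ofFn]
  congr 1
  apply List.ext_getElem
  · simp
  · intro n h1 h2
    simp

theorem face_period {M : DMap D} {P : List D} (hP : M.IsFace P) {p : D} (hp : p ∈ P) :
    (M.φ ^ P.length) p = p := by
  obtain ⟨i, hi, rfl⟩ := List.getElem_of_mem hp
  rw [face_iter hP i hi]
  congr 1
  rw [Nat.add_mod_left]
  exact Nat.mod_eq_of_lt hi

theorem face_reach {M : DMap D} {P : List D} (hP : M.IsFace P) {p p' : D} (hp : p ∈ P)
    (hp' : p' ∈ P) : ∃ k, k < P.length ∧ (M.φ ^ k) p = p' := by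
  obtain ⟨j, hj⟩ := face_rot hP hp
  have : p' ∈ P.rotate j := List.mem_rotate.2 hp'
  rw [hj, List.mem_map] at this
  obtain ⟨k, hk, hk'⟩ := this
  exact ⟨k, List.mem_range.1 hk, hk'⟩

end

section

variable {V : Type} {X : Cx V} {a : Equiv.Perm V}

theorem dist_a (hf : FreeAut X a) (hc : X.G.Connected) (x y : V) :
    X.G.dist (a x) (a y) = X.G.dist x y := by
  let e : X.G ≃g X.G := ⟨a, fun {x y} => hf.adj x y⟩
  apply le_antisymm
  · obtain ⟨w, hw⟩ := hc.exists_walk_length_eq_dist x y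
    have := SimpleGraph.dist_le (w.map e.toHom)
    rw [SimpleGraph.Walk.length_map, hw] at this
    exact this
  · obtain ⟨w, hw⟩ := hc.exists_walk_length_eq_dist (a x) (a y)
    have := SimpleGraph.dist_le (w.map e.symm.toHom)
    rw [SimpleGraph.Walk.length_map, hw] at this
    have h1 : e.symm.toHom (a x) = x := e.symm_apply_apply x
    have h2 : e.symm.toHom (a y) = y := e.symm_apply_apply y
    rw [h1, h2] at this
    exact this

theorem dist_zpow (hf : FreeAut X a) (hc : X.G.Connected) (n : ℤ) (x y : V) :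
    X.G.dist ((a ^ n) x) ((a ^ n) y) = X.G.dist x y := by
  induction n with
  | zero => simp
  | succ n ih =>
    rw [add_comm, zpow_add, zpow_one, Equiv.Perm.mul_apply, Equiv.Perm.mul_apply,
      dist_a hf hc, ih]
  | pred n ih =>
    rw [← dist_a hf hc ((a ^ (-(n : ℤ) - 1)) x), ← Equiv.Perm.mul_apply, ← Equiv.Perm.mul_apply,
      ← zpow_one_add, show 1 + (-(n : ℤ) - 1) = -(n : ℤ) by ring, ih]

variable {C : ℝ} (𝒜 : MA X a C)

theorem dist_ft (hf : FreeAut X a) (hc : X.G.Connected) (d : 𝒜.D) :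
    (X.G.dist (𝒜.M.f d) (𝒜.M.t d) : ℝ) ≤ C * 𝒜.ℓ d := by
  have hpos : 0 < 𝒜.ℓ d := 𝒜.ok.lenok.1 d
  have h1 := 𝒜.ok.eι d 0 le_rfl hpos.le
  rw [sub_zero] at h1
  have h2 := 𝒜.ok.elip d 0 (𝒜.ℓ d) le_rfl hpos.le hpos.le le_rfl (𝒜.M.f d)
  rw [← h1, 𝒜.ok.e0, 𝒜.ok.e0] at h2
  have h3 : kap X (𝒜.M.f d) (𝒜.M.f d) = 0 := by unfold kap; simp
  have h4 : sh a (𝒜.M.γ d) (kap X (𝒜.M.f (𝒜.M.ι d))) (𝒜.M.f d) =
      X.G.dist (𝒜.M.t d) (𝒜.M.f d) := by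
    show (X.G.dist (𝒜.M.f (𝒜.M.ι d)) ((a ^ (-𝒜.M.γ d)) (𝒜.M.f d)) : ℝ) = _
    rw [← dist_zpow hf hc (𝒜.M.γ d) (𝒜.M.f (𝒜.M.ι d)), ← Equiv.Perm.mul_apply (a ^ 𝒜.M.γ d),
      ← zpow_add, add_neg_cancel, zpow_zero, Equiv.Perm.one_apply]
    rfl
  rw [h3, h4, zero_sub, abs_neg, zero_sub, abs_neg, abs_of_pos hpos,
    abs_of_nonneg (Nat.cast_nonneg _), SimpleGraph.dist_comm] at h2
  exact h2

theorem dist_iter (hf : FreeAut X a) (hc : X.G.Connected) (p : 𝒜.D) (k : ℕ) :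
    (X.G.dist (𝒜.M.f p) ((a ^ (∑ i ∈ Finset.range k, 𝒜.M.h ((𝒜.M.φ ^ i) p)))
      (𝒜.M.f ((𝒜.M.φ ^ k) p))) : ℝ) ≤ C * ∑ i ∈ Finset.range k, 𝒜.ℓ ((𝒜.M.φ ^ i) p) := by
  induction k with
  | zero => simp
  | succ k ih =>
    rw [Finset.sum_range_succ, Finset.sum_range_succ, mul_add]
    set H := ∑ i ∈ Finset.range k, 𝒜.M.h ((𝒜.M.φ ^ i) p) with hH
    have h1 : (a ^ (H + 𝒜.M.h ((𝒜.M.φ ^ k) p))) (𝒜.M.f ((𝒜.M.φ ^ (k + 1)) p)) =
        (a ^ H) (𝒜.M.t ((𝒜.M.φ ^ k) p)) := by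
      rw [zpow_add, Equiv.Perm.mul_apply, pow_succ', Equiv.Perm.mul_apply]
      congr 1
      exact (𝒜.M.tgt _).symm
    rw [h1]
    have h2 : (X.G.dist ((a ^ H) (𝒜.M.f ((𝒜.M.φ ^ k) p)))
        ((a ^ H) (𝒜.M.t ((𝒜.M.φ ^ k) p))) : ℝ) ≤ C * 𝒜.ℓ ((𝒜.M.φ ^ k) p) := by
      rw [dist_zpow hf hc]
      exact dist_ft 𝒜 hf hc _
    have h3 : (X.G.dist (𝒜.M.f p) ((a ^ H) (𝒜.M.t ((𝒜.M.φ ^ k) p))) : ℝ) ≤
        X.G.dist (𝒜.M.f p) ((a ^ H) (𝒜.M.f ((𝒜.M.φ ^ k) p))) +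
          X.G.dist ((a ^ H) (𝒜.M.f ((𝒜.M.φ ^ k) p))) ((a ^ H) (𝒜.M.t ((𝒜.M.φ ^ k) p))) := by
      exact_mod_cast hc.dist_triangle
    linarith

theorem conn_face (hcyl : CYLStatement) (K : ℝ) (K' : ℕ) (h9 : Hyp9 X a C K K')
    (P : List 𝒜.D) (δ : ℤ) (hP : 𝒜.M.IsFace P) (hol : 𝒜.M.hol P = δ) (hδ : δ = 1 ∨ δ = -1)
    (hlen : (P.map 𝒜.ℓ).sum ≤ K) :
    ∀ p ∈ P, ∀ p' ∈ P, ∀ n : ℤ, CY X a K' (𝒜.M.f p) ((a ^ n) (𝒜.M.f p')) := by
  have hf := h9.aut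
  have hc := h9.conn
  have hC := h9.C0
  obtain ⟨c1, c2, c3, c4, c5, -⟩ := hcyl V X a hf hc K'
  have hCK : 0 ≤ C * K := mul_nonneg hC.le h9.K0
  set L : ℕ := ⌊C * K⌋₊ with hL
  have hLK : 3 * L ≤ K' := by
    have h1 : (L : ℝ) ≤ C * K := Nat.floor_le hCK
    have h2 := h9.K'
    have h3 : ((3 * L : ℕ) : ℝ) ≤ K' := by
      push_cast
      linarith
    exact_mod_cast h3
  -- displacement
  have hdisp : ∀ p ∈ P, X.G.dist (𝒜.M.f p) (a (𝒜.M.f p)) ≤ L := by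
    intro p hp
    have h1 := dist_iter 𝒜 hf hc p P.length
    rw [← sum_face hP hp 𝒜.M.h, ← sum_face hP hp 𝒜.ℓ, face_period hP hp] at h1
    have h2 : (P.map 𝒜.M.h).sum = δ := hol
    rw [h2] at h1
    have h3 : X.G.dist (𝒜.M.f p) ((a ^ δ) (𝒜.M.f p)) = X.G.dist (𝒜.M.f p) (a (𝒜.M.f p)) := by
      rcases hδ with rfl | rfl
      · rw [zpow_one]
      · rw [← dist_a hf hc (𝒜.M.f p), ← Equiv.Perm.mul_apply a, ← zpow_one_add,
          show (1 : ℤ) + -1 = 0 by norm_num, zpow_zero, Equiv.Perm.one_apply,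
          SimpleGraph.dist_comm]
    rw [h3] at h1
    apply Nat.le_floor
    exact h1.trans (mul_le_mul_of_nonneg_left hlen hC.le)
  intro p hp p' hp' n
  obtain ⟨k, hk, hkp⟩ := face_reach hP hp hp'
  have h1 := dist_iter 𝒜 hf hc p k
  rw [hkp] at h1
  set H := ∑ i ∈ Finset.range k, 𝒜.M.h ((𝒜.M.φ ^ i) p) with hH
  have h2 : ∑ i ∈ Finset.range k, 𝒜.ℓ ((𝒜.M.φ ^ i) p) ≤ K := by
    refine le_trans ?_ hlen
    rw [sum_face hP hp 𝒜.ℓ]
    exact Finset.sum_le_sum_of_subset_of_nonneg (Finset.range_mono hk.le)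
      (fun i _ _ => (𝒜.ok.lenok.1 _).le)
  have h3 : X.G.dist (𝒜.M.f p) ((a ^ H) (𝒜.M.f p')) ≤ L :=
    Nat.le_floor (h1.trans (mul_le_mul_of_nonneg_left h2 hC.le))
  have h4 := c4 _ _ L (hdisp p hp) h3 hLK
  have h5 := c3 _ _ H (c5 (𝒜.M.f p') (n - H) L (hdisp p' hp') hLK)
  rw [← Equiv.Perm.mul_apply, ← zpow_add, add_sub_cancel] at h5
  exact c2 _ _ _ h4 h5

end

theorem pconn (hcyl : CYLStatement) : PConnStatement := by
  intro V X a C K K' h9 𝒜 hLe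
  refine ⟨conn_face 𝒜 hcyl K K' h9 𝒜.P 𝒜.ε 𝒜.ok.ann.faceP 𝒜.ok.ann.holP 𝒜.ok.ann.eps hLe.1,
    conn_face 𝒜 hcyl K K' h9 𝒜.Q (-𝒜.ε) 𝒜.ok.ann.faceQ 𝒜.ok.ann.holQ ?_ hLe.2⟩
  rcases 𝒜.ok.ann.eps with h | h
  · right; rw [h]
  · left; rw [h]; norm_num

end MSG.H78
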