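import Pool.Agent.Lib.MP_acafa7_al.MS.Iface2

/-! Module Swap: exchange of the two boundary faces. -/

namespace MSG.H78

open Classical

theorem annB_comm {D : Type} (P Q : List D) : annB Q P = annB P Q := by
  unfold annB
  ext d
  exact or_comm

theorem swap : SwapStatement := by
  intro V D _ X a C M P Q ε ℓ e h
  have hann := h.ann
  refine ⟨⟨hann.planar, hann.faceQ, hann.faceP, fun d hq hp => hann.disj d hp hq, ?_, hann.holQ,
    ?_, ?_⟩, ?_, h.e0, h.eι, h.elip, ?_, ?_⟩
  · rw [annB_comm]; exact hann.off
  · rw [neg_neg]; exact hann.holP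
  · rcases hann.eps with h1 | h1
    · right; rw [h1]
    · left; rw [h1]; norm_num
  · rw [annB_comm]; exact h.lenok
  · rw [annB_comm]; exact h.fil
  · rw [annB_comm]; exact h.npc

end MSG.H78
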