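import Pool.Agent.Lib.MP_acafa7_al.MS.Iface2

/-! Module Touch: the two boundary faces have a common vertex. -/

namespace MSG.H78

open Classical

theorem touch (hP : PConnStatement) (hL : LabVStatement) (hC : CYLStatement) :
    TouchStatement := by
  intro V X a C K K' h9 𝒜 hLe hT
  obtain ⟨-, c2, -⟩ := hC V X a h9.aut h9.conn K'
  obtain ⟨hp, hq⟩ := hP V X a C K K' h9 𝒜 hLe
  unfold MA.NoTouch at hT
  push Not at hT
  obtain ⟨p₀, hp₀, q₀, hq₀, hv⟩ := hT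
  obtain ⟨n, hn⟩ := hL V 𝒜.D a 𝒜.M p₀ q₀ hv
  intro p hp1 q hq1
  have h1 := hp p hp1 p₀ hp₀ n
  rw [← hn] at h1
  have h2 := hq q₀ hq₀ q hq1 0
  rw [zpow_zero, Equiv.Perm.one_apply] at h2
  exact c2 _ _ _ h1 h2

end MSG.H78
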