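import Pool.Agent.Lib.MP_acafa7_al.MS.Iface1

/-! Module Zip: zipping two consecutive darts `d`, `φ d`. -/

namespace MSG.H78

open Classical

section

variable {D : Type} (M : DMap D) (d : D)

/-- new face permutation (values) -/
noncomputable def zF (x : D) : D := if M.φ x = d then M.φ (M.φ d) else M.φ x

/-- inverse of the new face permutation (values) -/
noncomputable def zG (y : D) : D := if M.φ.symm y = M.φ d then M.φ.symm d else M.φ.symm y

/-- new involution (values) -/
noncomputable def zI (x : D) : D :=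
  if x = M.ι d then M.ι (M.φ d) else if x = M.ι (M.φ d) then M.ι d else M.ι x

/-- the remaining darts -/
def zP (x : D) : Prop := x ≠ d ∧ x ≠ M.φ d

variable {M d}

theorem zF_mem (hd : M.φ d ≠ d) {x : D} (hx : zP M d x) : zP M d (zF M d x) := by
  unfold zF
  by_cases h : M.φ x = d
  · rw [if_pos h]
    refine ⟨fun h' => ?_, fun h' => ?_⟩
    · exact hx.2 (M.φ.injective (h.trans h'.symm))
    · exact hd (M.φ.injective h')
  · rw [if_neg h]
    exact ⟨h, fun h' => hx.1 (M.φ.injective h')⟩

theorem zG_mem (hd : M.φ d ≠ d) {x : D} (hx : zP M d x) : zP M d (zG M d x) := by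
  unfold zG
  by_cases h : M.φ.symm x = M.φ d
  · rw [if_pos h]
    have hx' : x = M.φ (M.φ d) := by rw [← h, Equiv.apply_symm_apply]
    refine ⟨fun h' => ?_, fun h' => ?_⟩
    · have := congrArg M.φ h'
      rw [Equiv.apply_symm_apply] at this
      exact hd this.symm
    · have := congrArg M.φ h'
      rw [Equiv.apply_symm_apply] at this
      exact hx.1 (hx'.trans this.symm)
  · rw [if_neg h]
    refine ⟨fun h' => ?_, h⟩
    have := congrArg M.φ h'
    rw [Equiv.apply_symm_apply] at this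
    exact hx.2 this

theorem zG_zF {x : D} (hx : zP M d x) : zG M d (zF M d x) = x := by
  unfold zG zF
  by_cases h : M.φ x = d
  · rw [if_pos h, Equiv.symm_apply_apply, if_pos rfl, ← h, Equiv.symm_apply_apply]
  · rw [if_neg h, Equiv.symm_apply_apply, if_neg hx.2]

theorem zF_zG {x : D} (hx : zP M d x) : zF M d (zG M d x) = x := by
  unfold zG zF
  by_cases h : M.φ.symm x = M.φ d
  · rw [if_pos h, Equiv.apply_symm_apply, if_pos rfl, ← h, Equiv.apply_symm_apply]
  · rw [if_neg h, Equiv.apply_symm_apply, if_neg hx.1]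

theorem zI_mem {x : D} (hx : zP M d x) : zP M d (zI M d x) := by
  unfold zI
  by_cases h : x = M.ι d
  · rw [if_pos h]
    refine ⟨fun h' => ?_, M.ne _⟩
    have := congrArg M.ι h'
    rw [M.ιι] at this
    exact hx.2 (h.trans this.symm)
  · rw [if_neg h]
    by_cases h2 : x = M.ι (M.φ d)
    · rw [if_pos h2]
      refine ⟨M.ne _, fun h' => ?_⟩
      have := congrArg M.ι h'
      rw [M.ιι] at this
      exact hx.1 (h2.trans this.symm)
    · rw [if_neg h2]
      refine ⟨fun h' => h ?_, fun h' => h2 ?_⟩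
      · rw [← h', M.ιι]
      · rw [← h', M.ιι]

theorem zI_zI (hd : M.φ d ≠ d) {x : D} (hx : zP M d x) : zI M d (zI M d x) = x := by
  have hne : M.ι (M.φ d) ≠ M.ι d := fun h => hd (M.ι.injective h)
  unfold zI
  by_cases h : x = M.ι d
  · rw [if_pos h, if_neg hne, if_pos rfl, h]
  · rw [if_neg h]
    by_cases h2 : x = M.ι (M.φ d)
    · rw [if_pos h2, if_pos rfl, h2]
    · rw [if_neg h2]
      have h3 : M.ι x ≠ M.ι d := fun h' => hx.1 (M.ι.injective h')
      have h4 : M.ι x ≠ M.ι (M.φ d) := fun h' => hx.2 (M.ι.injective h')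
      rw [if_neg h3, if_neg h4, M.ιι]

theorem zI_ne (hd : M.φ d ≠ d) {x : D} : zI M d x ≠ x := by
  have hne : M.ι (M.φ d) ≠ M.ι d := fun h => hd (M.ι.injective h)
  unfold zI
  by_cases h : x = M.ι d
  · rw [if_pos h, h]; exact hne
  · rw [if_neg h]
    by_cases h2 : x = M.ι (M.φ d)
    · rw [if_pos h2, h2]; exact hne.symm
    · rw [if_neg h2]; exact M.ne x

variable (M d)

/-- the zipped map -/
noncomputable def zMap (hd : M.φ d ≠ d) : DMap {x : D // zP M d x} where
  φ := { toFun := fun x => ⟨zF M d x.1, zF_mem hd x.2⟩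
         invFun := fun x => ⟨zG M d x.1, zG_mem hd x.2⟩
         left_inv := fun x => Subtype.ext (zG_zF x.2)
         right_inv := fun x => Subtype.ext (zF_zG x.2) }
  ι := { toFun := fun x => ⟨zI M d x.1, zI_mem x.2⟩
         invFun := fun x => ⟨zI M d x.1, zI_mem x.2⟩
         left_inv := fun x => Subtype.ext (zI_zI hd x.2)
         right_inv := fun x => Subtype.ext (zI_zI hd x.2) }
  ιι := fun x => Subtype.ext (zI_zI hd x.2)
  ne := fun x h => zI_ne hd (congrArg Subtype.val h)

theorem zMap_φ (hd : M.φ d ≠ d) (x : {x : D // zP M d x}) :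
    ((zMap M d hd).φ x).1 = zF M d x.1 := rfl

theorem zMap_ι (hd : M.φ d ≠ d) (x : {x : D // zP M d x}) :
    ((zMap M d hd).ι x).1 = zI M d x.1 := rfl

/-- extension by zero -/
noncomputable def ext0 (k : {x : D // zP M d x} → ZMod 2) (x : D) : ZMod 2 :=
  if h : zP M d x then k ⟨x, h⟩ else 0

theorem ext0_val (k : {x : D // zP M d x} → ZMod 2) (x : {x : D // zP M d x}) :
    ext0 M d k x.1 = k x := by
  unfold ext0; rw [dif_pos x.2]

theorem zMap_planar (hd : M.φ d ≠ d) (hp : M.Planar) : (zMap M d hd).Planar := by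
  intro k' hk'
  -- values of the extension
  let K : D → ZMod 2 := ext0 M d k'
  let kd : ZMod 2 := K (M.φ (M.φ d))
  let ke : ZMod 2 := if M.ι d = M.φ d then kd else kd + (K (zF M d (M.ι d)) + K (M.ι d))
  let k : D → ZMod 2 := fun x => if x = d then kd else if x = M.φ d then ke else K x
  have kP : ∀ x, zP M d x → k x = K x := fun x hx => by
    show (if x = d then kd else if x = M.φ d then ke else K x) = K x
    rw [if_neg hx.1, if_neg hx.2]
  have kd' : k d = kd := if_pos rfl
  have ke' : k (M.φ d) = ke := by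
    show (if M.φ d = d then kd else if M.φ d = M.φ d then ke else K (M.φ d)) = ke
    rw [if_neg hd, if_pos rfl]
  have hKK : ∀ x, zP M d x → K (zF M d (zI M d x)) + K (zI M d x) = K (zF M d x) + K x := by
    intro x hx
    have := hk' ⟨x, hx⟩
    rw [← ext0_val M d k', ← ext0_val M d k', ← ext0_val M d k', ← ext0_val M d k'] at this
    exact this
  have hcc : ∀ z : ZMod 2, z + z = 0 := fun z => CharTwo.add_self_eq_zero z
  -- k (φ φ d) = kd
  have kdd : k (M.φ (M.φ d)) = kd := by
    by_cases h : M.φ (M.φ d) = d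
    · rw [h, kd']
    · exact kP _ ⟨h, fun h' => hd (M.φ.injective h')⟩
  -- c x = c' x for the remaining darts
  have hc : ∀ x, zP M d x → k (M.φ x) + k x = K (zF M d x) + K x := by
    intro x hx
    rw [kP x hx]
    congr 1
    unfold zF
    by_cases h : M.φ x = d
    · rw [if_pos h, h, kd']
    · rw [if_neg h]
      exact kP _ ⟨h, fun h' => hx.1 (M.φ.injective h')⟩
  have hcd : k (M.φ d) + k d = ke + kd := by rw [kd', ke']
  have hce : k (M.φ (M.φ d)) + k (M.φ d) = ke + kd := by rw [kdd, ke', add_comm]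
  have hk : ∀ x, k (M.φ (M.ι x)) + k (M.ι x) = k (M.φ x) + k x := by
    by_cases hh : M.ι d = M.φ d
    · have hh' : M.ι (M.φ d) = d := by rw [← hh, M.ιι]
      intro x
      by_cases h1 : x = d
      · rw [h1, hh, hcd, hce]
      by_cases h2 : x = M.φ d
      · rw [h2, hh', hcd, hce]
      have hx : zP M d x := ⟨h1, h2⟩
      have hIx : zI M d x = M.ι x := by
        unfold zI
        rw [if_neg (by rw [hh]; exact h2), if_neg (by rw [hh']; exact h1)]
      have hx' : zP M d (M.ι x) := by rw [← hIx]; exact zI_mem hx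
      rw [hc _ hx', hc _ hx, ← hKK x hx, hIx]
    · have hh' : M.ι (M.φ d) ≠ d := fun h => hh (by
        have := congrArg M.ι h
        rw [M.ιι] at this
        exact this.symm)
      have hPd : zP M d (M.ι d) := ⟨M.ne d, hh⟩
      have hPe : zP M d (M.ι (M.φ d)) := ⟨hh', M.ne _⟩
      have hke : ke = kd + (K (zF M d (M.ι d)) + K (M.ι d)) := if_neg hh
      have hId : zI M d (M.ι d) = M.ι (M.φ d) := if_pos rfl
      have hE : K (zF M d (M.ι (M.φ d))) + K (M.ι (M.φ d)) = K (zF M d (M.ι d)) + K (M.ι d) := by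
        have := hKK _ hPd
        rw [hId] at this
        exact this
      have e1 : ke + kd = K (zF M d (M.ι d)) + K (M.ι d) := by
        rw [hke, add_comm kd, add_assoc, hcc, add_zero]
      intro x
      by_cases h1 : x = d
      · rw [h1, hc _ hPd, hcd, e1]
      by_cases h2 : x = M.φ d
      · rw [h2, hc _ hPe, hce, e1, hE]
      have hx : zP M d x := ⟨h1, h2⟩
      by_cases h3 : x = M.ι d
      · rw [h3, M.ιι, hcd, hc _ hPd, e1]
      by_cases h4 : x = M.ι (M.φ d)
      · rw [h4, M.ιι, hce, hc _ hPe, e1, hE]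
      have hIx : zI M d x = M.ι x := by
        unfold zI
        rw [if_neg h3, if_neg h4]
      have hx' : zP M d (M.ι x) := by rw [← hIx]; exact zI_mem hx
      rw [hc _ hx', hc _ hx, ← hKK x hx, hIx]
  obtain ⟨h, h1, h2⟩ := hp k hk
  have hdd : h (M.φ (M.φ d)) = h d := by
    have e1 := h2 d
    have e2 := h2 (M.φ d)
    rw [kdd] at e2
    rw [kd'] at e1
    exact add_left_cancel (e2.trans e1)
  have hF : ∀ x, zP M d x → h (zF M d x) = h (M.φ x) := by
    intro x hx
    unfold zF
    by_cases hxd : M.φ x = d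
    · rw [if_pos hxd, hxd, hdd]
    · rw [if_neg hxd]
  have hI : ∀ x, zP M d x → h (zI M d x) = h (M.ι x) := by
    intro x hx
    unfold zI
    by_cases h3 : x = M.ι d
    · rw [if_pos h3, h3, M.ιι, ← h1, hdd]
    rw [if_neg h3]
    by_cases h4 : x = M.ι (M.φ d)
    · rw [if_pos h4, h4, M.ιι, ← h1]
    · rw [if_neg h4]
  refine ⟨fun x => h x.1, fun x => ?_, fun x => ?_⟩
  · show h (zF M d x.1) = h (zI M d x.1)
    rw [hF _ x.2, hI _ x.2, h1]
  · show k' ((zMap M d hd).φ x) + h (zF M d x.1) = k' x + h x.1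
    rw [← ext0_val M d k' x, ← ext0_val M d k' ((zMap M d hd).φ x), zMap_φ]
    have e1 := h2 x.1
    have e2 : K (zF M d x.1) = k (M.φ x.1) := by
      have := hc x.1 x.2
      rw [kP _ x.2] at this
      exact (add_right_cancel this).symm
    show K (zF M d x.1) + h (zF M d x.1) = K x.1 + h x.1
    rw [e2, hF _ x.2, e1, kP _ x.2]

end

theorem zip : ZipStatement := by
  intro V D _ a M d hd hyp
  have hne : M.ι (M.φ d) ≠ M.ι d := fun h => hd (M.ι.injective h)
  have hyp' : (a ^ (M.h d + M.γ (M.φ d))) (M.f (M.ι (M.φ d))) = M.f d := by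
    rw [zpow_add, Equiv.Perm.mul_apply]; exact hyp
  let g : D → ℤ := fun x => if x = M.ι d then M.h d + M.γ (M.φ d) - M.γ d
    else if x = M.ι (M.φ d) then -(M.h d + M.γ (M.φ d) - M.γ d) else M.γ x
  let s : D → ℤ := fun x => if M.φ x = d then M.h x + M.h d + M.h (M.φ d) else M.h x
  -- the target label is not changed
  have hL : ∀ x, (a ^ g x) (M.f (zI M.toDMap d x)) = (a ^ M.γ x) (M.f (M.ι x)) := by
    intro x
    show (a ^ (if x = M.ι d then M.h d + M.γ (M.φ d) - M.γ d
      else if x = M.ι (M.φ d) then -(M.h d + M.γ (M.φ d) - M.γ d) else M.γ x))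
      (M.f (if x = M.ι d then M.ι (M.φ d) else if x = M.ι (M.φ d) then M.ι d else M.ι x)) = _
    by_cases h3 : x = M.ι d
    · rw [if_pos h3, if_pos h3, h3, M.ιι, M.γι,
        show M.h d + M.γ (M.φ d) - M.γ d = -M.γ d + (M.h d + M.γ (M.φ d)) by ring,
        zpow_add, Equiv.Perm.mul_apply, hyp']
    rw [if_neg h3, if_neg h3]
    by_cases h4 : x = M.ι (M.φ d)
    · rw [if_pos h4, if_pos h4, h4, M.ιι, M.γι,
        show -(M.h d + M.γ (M.φ d) - M.γ d) = -M.γ (M.φ d) + (-M.h d + M.γ d) by ring,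
        zpow_add, Equiv.Perm.mul_apply]
      congr 1
      rw [zpow_add, Equiv.Perm.mul_apply, M.tgt, ← Equiv.Perm.mul_apply, ← zpow_add,
        neg_add_cancel, zpow_zero, Equiv.Perm.one_apply]
    · rw [if_neg h4, if_neg h4]
  have hR : ∀ x, (a ^ s x) (M.f (zF M.toDMap d x)) = (a ^ M.h x) (M.f (M.φ x)) := by
    intro x
    show (a ^ (if M.φ x = d then M.h x + M.h d + M.h (M.φ d) else M.h x))
      (M.f (if M.φ x = d then M.φ (M.φ d) else M.φ x)) = _
    by_cases h3 : M.φ x = d
    · rw [if_pos h3, if_pos h3, h3, add_assoc, zpow_add, Equiv.Perm.mul_apply]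
      congr 1
      rw [zpow_add, Equiv.Perm.mul_apply, ← M.tgt, ← Equiv.Perm.mul_apply, ← zpow_add, hyp']
    · rw [if_neg h3, if_neg h3]
  let M' : LMap V {x : D // zP M.toDMap d x} a :=
    { zMap M.toDMap d hd with
      f := fun x => M.f x.1
      γ := fun x => g x.1
      h := fun x => s x.1
      γι := by
        intro x
        show g (zI M.toDMap d x.1) = -g x.1
        unfold zI
        by_cases h3 : x.1 = M.ι d
        · rw [if_pos h3, h3]
          show (if M.ι (M.φ d) = M.ι d then M.h d + M.γ (M.φ d) - M.γ d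
            else if M.ι (M.φ d) = M.ι (M.φ d) then -(M.h d + M.γ (M.φ d) - M.γ d)
            else M.γ (M.ι (M.φ d))) = -(if M.ι d = M.ι d then M.h d + M.γ (M.φ d) - M.γ d
            else if M.ι d = M.ι (M.φ d) then -(M.h d + M.γ (M.φ d) - M.γ d) else M.γ (M.ι d))
          rw [if_neg hne, if_pos rfl, if_pos rfl]
        rw [if_neg h3]
        by_cases h4 : x.1 = M.ι (M.φ d)
        · rw [if_pos h4, h4]
          show (if M.ι d = M.ι d then M.h d + M.γ (M.φ d) - M.γ d
            else if M.ι d = M.ι (M.φ d) then -(M.h d + M.γ (M.φ d) - M.γ d) else M.γ (M.ι d)) =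
            -(if M.ι (M.φ d) = M.ι d then M.h d + M.γ (M.φ d) - M.γ d
            else if M.ι (M.φ d) = M.ι (M.φ d) then -(M.h d + M.γ (M.φ d) - M.γ d)
            else M.γ (M.ι (M.φ d)))
          rw [if_neg hne, if_pos rfl, if_pos rfl, neg_neg]
        rw [if_neg h4]
        have h5 : M.ι x.1 ≠ M.ι d := fun h' => x.2.1 (M.ι.injective h')
        have h6 : M.ι x.1 ≠ M.ι (M.φ d) := fun h' => x.2.2 (M.ι.injective h')
        show (if M.ι x.1 = M.ι d then M.h d + M.γ (M.φ d) - M.γ d
            else if M.ι x.1 = M.ι (M.φ d) then -(M.h d + M.γ (M.φ d) - M.γ d)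
            else M.γ (M.ι x.1)) = -(if x.1 = M.ι d then M.h d + M.γ (M.φ d) - M.γ d
            else if x.1 = M.ι (M.φ d) then -(M.h d + M.γ (M.φ d) - M.γ d) else M.γ x.1)
        rw [if_neg h5, if_neg h6, if_neg h3, if_neg h4, M.γι]
      tgt := by
        intro x
        show (a ^ g x.1) (M.f (zI M.toDMap d x.1)) = (a ^ s x.1) (M.f (zF M.toDMap d x.1))
        rw [hL, hR, M.tgt] }
  refine ⟨{x : D // zP M.toDMap d x}, inferInstance, M', fun x => x.1, Subtype.val_injective,
    fun x => ?_, fun x => rfl, fun x => rfl, fun x => rfl, fun x => rfl, fun x => rfl,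
    fun hp => zMap_planar M.toDMap d hd hp⟩
  constructor
  · rintro ⟨x', rfl⟩
    exact x'.2
  · intro h
    exact ⟨⟨x, h⟩, rfl⟩

end MSG.H78
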